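import Pool.Agent.H.MP_144feb_an.Pair
import Pool.Agent.H.MP_144feb_an.Ryan

/-!
# Ryan's theorem for random substitution subshifts

For every primitive, compatible, non-degenerate random substitution `θ` the center of the
automorphism group of the subshift `X_θ` is generated by the shift.
-/

namespace Pool.Agent.Results.MP_144feb_an.RyanTheorem

open Pool.Agent.H.MP_144feb_an

/-- The center of the automorphism group of the subshift of a primitive, compatible,
non-degenerate random substitution is the cyclic group generated by the shift. -/
theorem result {A : Type} [Fintype A] [DecidableEq A] [TopologicalSpace A] [DiscreteTopology A]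
    (θ : A → Set (List A)) (hθ : IsRandomSubstitution θ) (hc : Compatible θ)
    (hp : Primitive θ) (hn : NonDegenerate θ) :
    Subgroup.center (Aut (Legal θ)) = Subgroup.zpowers (shiftAut (Legal θ)) := by
  obtain ⟨V, V', hVV, hlen, hV, hint⟩ := exists_inter θ hθ hp hn
  exact ryan (Legal θ) (legal_factorial θ) (legal_concat θ hθ hp hn) V V' hVV hlen hV hint

end Pool.Agent.Results.MP_144feb_an.RyanTheorem
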